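import Pool.Agent.H38.SE.TarA

/-! # AE: countable closures -/

set_option linter.unusedVariables false

open Ordinal Order Set
open scoped ZFSet

namespace SE

open SF

theorem rg_resS (a : V) (F : V → V) : rg (resS a F) = imS a F := by
  ext y
  rw [mem_rg, mem_imS]
  constructor
  · rintro ⟨x, hx⟩
    obtain ⟨h1, h2⟩ := pair_mem_resS.1 hx
    exact ⟨x, h1, h2.symm⟩
  · rintro ⟨x, hx, h⟩
    exact ⟨x, pair_mem_resS.2 ⟨hx, h.symm⟩⟩

/-- one step of the closure -/
noncomputable def stE (Y Ψ : V) : V := Y ∪ (⋃₀ (imS (Fs Y) fun e => app Ψ e) : ZFSet)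

theorem mem_stE {Y Ψ y : V} : y ∈ stE Y Ψ ↔ y ∈ Y ∨ ∃ e ∈ Fs Y, y ∈ app Ψ e := by
  unfold stE
  rw [ZFSet.mem_union, ZFSet.mem_sUnion]
  constructor
  · rintro (h | ⟨_, h1, h2⟩)
    · exact Or.inl h
    · obtain ⟨e, he, rfl⟩ := mem_imS.1 h1
      exact Or.inr ⟨e, he, h2⟩
  · rintro (h | ⟨e, he, h2⟩)
    · exact Or.inl h
    · exact Or.inr ⟨_, mem_imS.2 ⟨e, he, rfl⟩, h2⟩

/-- AE -/
theorem pf_AE : T_AB → T_AC → T_AD → T_AE := by
  intro hAB hAC hAD M hM X Ψ hX hΨ hcl Y0 hY0X hY0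
  have k : ZFm M := hM.toZFm
  obtain ⟨ab1, ab2, ab3⟩ := hAB
  obtain ⟨c1, c2, c3, c4, c5, c6⟩ := hAC M k
  have hF : Tm ZFm (fun (_ : V → Prop) (v : ℕ → V) => stE (v 0) (v 1)) := by
    refine (Tm.union (Tm.var 0) (Tm.iUn (f := fun _ v => Fs (v 0))
      (g := fun _ v => app (v 2) (v 0)) ab2 (Tm.app (Tm.var 2) (Tm.var 0)))).congr ?_
    intro M k v hv
    rfl
  have hG : Tm ZFm (fun (_ : V → Prop) (v : ℕ → V) => v 1) := Tm.var 1
  set v : ℕ → V := cons Ψ fun _ => Y0 with hvd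
  have hv : In M v := In.cons (fun _ => c1 Y0 hY0) hΨ
  set I : ℕ → V := it (fun _ v => stE (v 0) (v 1)) (fun _ v => v 1) M v with hI
  have hI0 : I 0 = Y0 := rfl
  have hIs : ∀ n, I (n + 1) = stE (I n) Ψ := fun n => rfl
  have hmono : ∀ n, I n ⊆ I (n + 1) := fun n y hy => by
    rw [hIs]
    exact mem_stE.2 (Or.inl hy)
  have hmono' : ∀ m n, m ≤ n → I m ⊆ I n := by
    intro m n h
    induction h with
    | refl => exact fun y hy => hy
    | step _ ih => exact fun y hy => hmono _ (ih hy)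
  have hIX : ∀ n, I n ⊆ X := by
    intro n
    induction n with
    | zero => exact hY0X
    | succ n ih =>
      intro y hy
      rw [hIs] at hy
      rcases mem_stE.1 hy with h | ⟨e, he, h⟩
      · exact ih h
      · obtain ⟨h1, h2⟩ := (ab1 _ _).1 he
        exact (hcl e ((ab1 _ _).2 ⟨fun z hz => ih (h1 hz), h2⟩)).1 h
  have hIc : ∀ n, Ctbl M (I n) := by
    intro n
    induction n with
    | zero => exact hY0
    | succ n ih =>
      rw [hIs]
      have h1 : Ctbl M (Fs (I n)) := c5 _ ih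
      have h2 : M (resS (Fs (I n)) fun e => app Ψ e) := by
        have h3 := (Tm.resS (f := fun _ v => Fs (v 0)) (g := fun _ v => app (v 2) (v 0)) ab2
          (Tm.app (Tm.var 2) (Tm.var 0))).1 M k (cons (I n) v) (hv.cons (c1 _ ih))
        exact h3
      have h4 := c6 _ _ h2 (svl_resS _ _) h1 (by rw [dm_resS])
      rw [rg_resS] at h4
      unfold stE
      refine c4 _ _ ih (hAD M hM _ h4 ?_)
      intro z hz
      obtain ⟨e, he, rfl⟩ := mem_imS.1 hz
      obtain ⟨h5, h6⟩ := (ab1 _ _).1 he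
      exact (hcl e ((ab1 _ _).2 ⟨fun z hz => hIX n (h5 hz), h6⟩)).2
  refine ⟨itU (fun _ v => stE (v 0) (v 1)) (fun _ v => v 1) M v, ?_, ?_, ?_, ?_⟩
  · unfold itU
    have h2 : M (resS om fun x => I (nn x)) := by
      have h3 := (Tm.resS (f := fun _ _ => om)
        (g := fun M u => SF.it (fun _ v => stE (v 0) (v 1)) (fun _ v => v 1) M
          (fun i => u (i + 1)) (nn (u 0))) Tm.om (tm_it hF hG)).1 M k v hv
      exact h3
    have h1 : Ctbl M om := by
      refine Or.inr ⟨resS om fun x => x, ?_, ?_, ?_⟩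
      · exact (Tm.resS (f := fun _ _ => om) (g := fun _ v => v 0) Tm.om (Tm.var 0)).1 M k v hv
      · exact isFunc_resS _ _ _ fun x hx => hx
      · intro b hb
        exact ⟨b, hb, pair_mem_resS.2 ⟨hb, rfl⟩⟩
    have h4 := c6 _ _ h2 (svl_resS _ _) h1 (by rw [dm_resS])
    rw [rg_resS] at h4
    refine hAD M hM _ h4 ?_
    intro z hz
    obtain ⟨n, hn, rfl⟩ := mem_imS.1 hz
    exact hIc _
  · intro y hy
    exact mem_itU.2 ⟨0, hy⟩
  · intro y hy
    obtain ⟨n, hn⟩ := mem_itU.1 hy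
    exact hIX n hn
  · intro e he y hy
    obtain ⟨h1, h2⟩ := (ab1 _ _).1 he
    -- a finite subset of the union is contained in one of the iterates
    have h3 : ∀ F : Set V, F.Finite → (∀ z ∈ F, ∃ n, z ∈ I n) → ∃ n, ∀ z ∈ F, z ∈ I n := by
      intro F hF
      induction F, hF using Set.Finite.induction_on with
      | empty => intro _; exact ⟨0, fun z hz => absurd hz (Set.notMem_empty z)⟩
      | insert _ _ ih =>
        rename_i a s _ _
        intro h
        obtain ⟨n, hn⟩ := ih (fun z hz => h z (Set.mem_insert_of_mem _ hz))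
        obtain ⟨m, hm⟩ := h a (Set.mem_insert _ _)
        refine ⟨max n m, fun z hz => ?_⟩
        rcases hz with rfl | hz
        · exact hmono' m _ (le_max_right _ _) hm
        · exact hmono' n _ (le_max_left _ _) (hn z hz)
    obtain ⟨n, hn⟩ := h3 (e : Set V) h2 (fun z hz => mem_itU.1 (h1 hz))
    refine mem_itU.2 ⟨n + 1, ?_⟩
    show y ∈ I (n + 1)
    rw [hIs]
    exact mem_stE.2 (Or.inr ⟨e, (ab1 _ _).2 ⟨fun z hz => hn z hz, h2⟩, hy⟩)

end SE
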