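import Pool.Agent.H38.SE.TarS

/-! # SA: states and extensions -/

set_option linter.unusedVariables false

open Ordinal Order Set
open scoped ZFSet

namespace SE

open SF

theorem sa_fst {M : V → Prop} (hM : ZFm M) {x : V} (hx : M x) : M (fst x) :=
  (Tm.fst (f := fun _ v => v 0) (Tm.var 0)).1 M hM (fun _ => x) (fun _ => hx)

theorem sa_snd {M : V → Prop} (hM : ZFm M) {x : V} (hx : M x) : M (snd x) :=
  (Tm.snd (f := fun _ v => v 0) (Tm.var 0)).1 M hM (fun _ => x) (fun _ => hx)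

theorem sa_mem_gs {G s p : V} : p ∈ gs G s ↔ p ∈ G ∧ dm p ⊆ s := by
  unfold gs
  rw [ZFSet.mem_sep]

theorem sa_gs_gs {G s s' : V} (h : s' ⊆ s) : gs (gs G s) s' = gs G s' := by
  ext p
  rw [sa_mem_gs, sa_mem_gs, sa_mem_gs]
  constructor
  · rintro ⟨⟨h1, _⟩, h2⟩
    exact ⟨h1, h2⟩
  · rintro ⟨h1, h2⟩
    exact ⟨⟨h1, fun x hx => h (h2 hx)⟩, h2⟩

theorem pf_SA (hBA : T_BA) (hBJ : T_BJ) (hBK : T_BK) (hBL : T_BL) (hBM : T_BM) (hBR : T_BR) :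
    T_SA := by
  intro D ok
  obtain ⟨-, hHt, hHN, -, -⟩ := hBJ D ok
  have hcld := hBA.2.2.2.2.2.2
  have hR := hBR D ok
  -- sub-states
  have hsub : ∀ ρ G, D.St ρ G → ∀ s, D.N s → s ⊆ ρ → Tr s →
      D.St s (gs G s) ∧ D.Ex s (gs G s) ρ G := by
    intro ρ G h s hs hsρ ht
    have h1 : D.St s (gs G s) :=
      { h := hR.1 s ρ hs h.h hsρ
        c := (hcld D.L ρ h.c).2.2 s hsρ ht
        g := ((hBL D ok ρ G (hHN ρ h.h) h.c h.g).2 s hs hsρ ht).1 }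
    exact ⟨h1, ⟨h, hsρ, rfl⟩⟩
  intro ρ G h
  have hN : D.N ρ := hHN ρ h.h
  have hTr : Tr ρ := (hcld D.L ρ h.c).1
  refine ⟨hN, ⟨h, fun x hx => hx, (hBL D ok ρ G hN h.c h.g).1⟩, hsub ρ G h, ?_, ?_⟩
  · intro ρ' hρ' hc' hs p hp hrp
    obtain ⟨G', h1, h2, h3⟩ := hBM D ok ρ ρ' G p hN (hHN ρ' hρ') hc' hs hTr h.g hp hrp
    exact ⟨G', ⟨⟨hρ', hc', h1⟩, hs, h3⟩, h2⟩
  · intro ρ' G' e
    have hN' : D.N ρ' := hHN ρ' e.st.h
    have hL := (hBL D ok ρ' G' hN' e.st.c e.st.g).2 ρ hN e.sub hTr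
    rw [e.res] at hL
    have hK := hBK D ok ρ' G' hN' e.st.c e.st.g
    have hname : ∀ s Y, D.N s → s ⊆ ρ → Tr s → D.N Y → Nam D.L s Y → ev G' Y = ev G Y := by
      intro s Y hs hsρ ht hY hnam
      have h1 := (hK.1 s Y hs (fun x hx => e.sub (hsρ hx)) ht hY hnam).2.2.2.2.2 ρ hsρ
      rw [e.res] at h1
      exact h1.symm
    have hcomp : ∀ i ∈ ρ, cg G' i = cg G i ∧ ev G' (lY i) = ev G (lY i) ∧
        ev G' (lZ i) = ev G (lZ i) ∧ ev G' (lA i) = ev G (lA i) ∧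
        ev G' (lB i) = ev G (lB i) := by
      intro i hi
      have hlab := (h.c i hi).1
      have hlS := (h.c i hi).2
      have hNi : D.N i := ok.zfc.toZFCm.toZFm.trans ρ hN i hi
      have hNlS : D.N (lS i) := sa_fst ok.zfc.toZFCm.toZFm (sa_snd ok.zfc.toZFCm.toZFm
        (sa_snd ok.zfc.toZFCm.toZFm hNi))
      have z3 : D.N (snd (snd (snd i))) := sa_snd ok.zfc.toZFCm.toZFm
        (sa_snd ok.zfc.toZFCm.toZFm (sa_snd ok.zfc.toZFCm.toZFm hNi))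
      have z4 := sa_snd ok.zfc.toZFCm.toZFm z3
      have z5 := sa_snd ok.zfc.toZFCm.toZFm z4
      have z6 := sa_snd ok.zfc.toZFCm.toZFm z5
      have htr : Tr (lS i) := hlab.tr
      refine ⟨?_, ?_, ?_, ?_, ?_⟩
      · have h1 := (hK.2 i (e.sub hi)).2.2.1 ρ hTr hi
        rw [e.res] at h1
        exact h1.symm
      · exact hname _ _ hNlS hlS htr (sa_fst ok.zfc.toZFCm.toZFm z3) hlab.y
      · exact hname _ _ hNlS hlS htr (sa_fst ok.zfc.toZFCm.toZFm z4) hlab.z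
      · exact hname _ _ hNlS hlS htr (sa_fst ok.zfc.toZFCm.toZFm z5) hlab.a
      · exact hname _ _ hNlS hlS htr z6 hlab.b
    refine ⟨e.st, hL.2.1, hL.2.2.1, ?_, hname, hcomp, ?_, ?_⟩
    · intro ρ'' G'' e'
      refine ⟨e'.st, fun x hx => e'.sub (e.sub hx), ?_⟩
      rw [← sa_gs_gs e.sub, e'.res, e.res]
    · intro s hs ht
      refine ⟨?_, fun x => ?_⟩
      · rw [← sa_gs_gs hs, e.res]
      · unfold Pro
        constructor
        · rintro ⟨j, hj, h1, h2⟩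
          obtain ⟨c1, -, c3, -⟩ := hcomp j (hs hj)
          rw [c3] at h1 h2
          rw [c1] at h2
          exact ⟨j, hj, h1, h2⟩
        · rintro ⟨j, hj, h1, h2⟩
          obtain ⟨c1, -, c3, -⟩ := hcomp j (hs hj)
          rw [← c3] at h1 h2
          rw [← c1] at h2
          exact ⟨j, hj, h1, h2⟩
    · intro s hs hρs hsρ' ht
      obtain ⟨h1, h2⟩ := hsub ρ' G' e.st s hs hsρ' ht
      refine ⟨⟨h1, hρs, ?_⟩, h2⟩
      rw [sa_gs_gs hρs, e.res]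

end SE
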