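import Pool.Agent.H45.SE.TarT

/-! # TCd: restrictions of isomorphisms, extensions of generic filters -/

set_option linter.unusedVariables false

open Ordinal Order Set
open scoped ZFSet

namespace SE

open SF

theorem tcd_tm2 {M : V → Prop} (hM : ZFm M) {f : V → V → V}
    (hf : Tm ZFm (fun _ v => f (v 0) (v 1))) {x y : V} (hx : M x) (hy : M y) : M (f x y) :=
  hf.1 M hM (fun i => if i = 0 then x else y) (fun i => by
    show M (if i = 0 then x else y)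
    split_ifs
    · exact hx
    · exact hy)

theorem pf_TCd (hBBa : T_BBa) (hBBc : T_BBc) (hBC : T_BC) (hBD : T_BD) (hBJ : T_BJ) (hBM : T_BM)
    (hBR : T_BR) (hTBa : T_TBa) (hTBd : T_TBd) (hTBb : T_TBb) (hTCa : T_TCa) (hTCc : T_TCc) :
    T_TCd := by
  intro D ok π ρ ρ' p h s hs hsρ htr
  obtain ⟨b1, -, b3, -, -, -, -, b8⟩ := hTBb D.L π ρ ρ' p h.c h.c' h.i
  obtain ⟨c1, c2, c3, c4, c5, c6⟩ := b8 s hsρ htr
  have hZ : ZFm D.N := ok.zfc.toZFCm.toZFm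
  have hR := (hBR D ok).1
  obtain ⟨-, -, hHN, -, -⟩ := hBJ D ok
  have him : D.N (im π s) := tcd_tm2 hZ hBBc.2.2.2.1 h.n hs
  have hp : p ∈ Pos D.L ρ := h.i.pp
  have hN : D.IsN (rst s π) s (im π s) (rst s p) :=
    { n := tcd_tm2 hZ hBBa.1 hs h.n
      h := hR s ρ hs h.h hsρ
      h' := hR (im π s) ρ' him h.h' c3
      c := c1
      c' := c2
      i := c4 }
  have hFFp : FF (rst s p) := by
    have h1 := (hBC.2.2.2.1 D.L s (rst s p)).1 c4.pp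
    exact h1.1
  have hdm : dm (rst s p) ⊆ s := by
    have h1 := (hBC.2.2.2.1 D.L s (rst s p)).1 c4.pp
    exact h1.2.1
  have hle : Le (rst s p) (rst s p) := (hBD.2.2.2.1 D.L s (rst s p) c4.pp).1
  have hCc := hTCc D ok (rst s π) s (im π s) (rst s p) π ρ ρ' p hN h hsρ
    (fun i hi => (c6 i hi).symm) hle
  refine ⟨hN, c6, c5, hCc.2.2, ?_⟩
  intro G' hG' hmem
  -- the map on conditions
  have hmv : mv π (rst s p) = mv (rst s π) (rst s p) :=
    (hTBa.2.2.2.1 π (rst s π) s (fun i hi => (c6 i hi).symm)).2 _ hFFp hdm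
  rw [hmv] at hmem
  obtain ⟨i1, i2⟩ := hTCa D ok _ _ _ _ hN
  obtain ⟨j1, j2⟩ := hTCa D ok _ _ _ _ i1
  obtain ⟨k1, k2, -, -, k5⟩ := j2 G' hG' hmem
  -- the double inverse
  obtain ⟨-, -, -, -, d5⟩ := hTBd (rst s π) s (im π s) c4.fn
  obtain ⟨-, -, -, e4, -, -, e7, -, -⟩ := d5 c4.inj c4.onto
  have e8 := (e7 (rst s p) hFFp hdm).2
  rw [e4, e8] at k5
  rw [e8] at k2
  obtain ⟨G, g1, g2, g3⟩ := hBM D ok s ρ _ p hs (hHN ρ h.h) h.c hsρ htr k1 hp k2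
  refine ⟨G, g1, g2, ?_⟩
  rw [(hCc.2.2 G g1 g2).2, g3]
  exact k5

end SE
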