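import Pool.Agent.H45.SE.TarT

/-! # TDa: transported names -/

set_option linter.unusedVariables false

open Ordinal Order Set
open scoped ZFSet

namespace SE

open SF

theorem tda_mem_nS {x : V} {n : ℕ} (h : x ∈ nS n) : ∃ m < n, x = nS m := by
  induction n with
  | zero => rw [nS_zero] at h; exact absurd h (ZFSet.notMem_empty x)
  | succ n ih =>
    rw [nS_succ, ZFSet.mem_insert_iff] at h
    rcases h with rfl | h
    · exact ⟨n, Nat.lt_succ_self n, rfl⟩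
    · obtain ⟨m, hm, rfl⟩ := ih h
      exact ⟨m, Nat.lt_succ_of_lt hm, rfl⟩

theorem tda_mem {L π p s s' Y q b : V} : ZFSet.pair q b ∈ trn L π p s s' Y ↔
    (q ∈ Pos L s' ∧ b ∈ sq) ∧ ∀ r ∈ Pos L s', Le r q → ∃ r' ∈ Pos L s', Le r' r ∧
      ((∃ q1 ∈ Pos L s, Le q1 p ∧ r' = mv π q1 ∧ ZFSet.pair q1 b ∈ Y) ∨
        ((∀ q' ∈ Pos L s', ¬ (Le q' r' ∧ Le q' (mv π p))) ∧ b ⊆ kc 0)) := by
  unfold trn
  rw [ZFSet.mem_sep, ZFSet.pair_mem_prod, fst_pair, snd_pair]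

theorem pf_TDa (hAF : T_AF) (hAG : T_AG) (hAH : T_AH) (hBC : T_BC) (hBD : T_BD)
    (hTBa : T_TBa) (hTBb : T_TBb) : T_TDa := by
  have hpos : ∀ L ρ p, p ∈ Pos L ρ → FF p ∧ dm p ⊆ ρ := fun L ρ p hp =>
    ⟨((hBC.2.2.2.1 L ρ p).1 hp).1, ((hBC.2.2.2.1 L ρ p).1 hp).2.1⟩
  have htr := hBD.2.2.2.2.1
  have hrf : ∀ L ρ p, p ∈ Pos L ρ → Le p p := fun L ρ p hp => (hBD.2.2.2.1 L ρ p hp).1
  refine ⟨?_, ?_⟩
  · intro L π π' p s s' Y hp hps hag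
    have hmv := (hTBa.2.2.2.1 π π' s hag).2
    have hmp : mv π p = mv π' p := hmv p hp hps
    unfold trn
    rw [hmp]
    congr 1
    funext z
    refine forall_congr fun r => forall_congr fun hr => forall_congr fun hrz => ?_
    refine propext ⟨?_, ?_⟩
    · rintro ⟨r', h1, h2, h3⟩
      refine ⟨r', h1, h2, ?_⟩
      rcases h3 with ⟨q, hq, h4, h5, h6⟩ | h3
      · refine Or.inl ⟨q, hq, h4, ?_, h6⟩
        rw [h5]
        exact hmv q (hpos L s q hq).1 (hpos L s q hq).2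
      · exact Or.inr h3
    · rintro ⟨r', h1, h2, h3⟩
      refine ⟨r', h1, h2, ?_⟩
      rcases h3 with ⟨q, hq, h4, h5, h6⟩ | h3
      · refine Or.inl ⟨q, hq, h4, ?_, h6⟩
        rw [h5]
        exact (hmv q (hpos L s q hq).1 (hpos L s q hq).2).symm
      · exact Or.inr h3
  · intro L π s s' p hcs hcs' hiso Y hY
    obtain ⟨b1, -, -, b4, b5, b6, -, -⟩ := hTBb L π s s' p hcs hcs' hiso
    have hpp : p ∈ Pos L s := hiso.pp
    have hle : ∀ q ∈ Pos L s, ∀ q' ∈ Pos L s, (Le (mv π q') (mv π q) ↔ Le q' q) := fun q hq q' hq' =>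
      ((hTBa.1 π s b1 q (hpos L s q hq).1 (hpos L s q hq).2).2.2.2.1 q' (hpos L s q' hq').1
        (hpos L s q' hq').2).1
    have hYb : ∀ q b, ZFSet.pair q b ∈ Y → b ∈ sq := by
      intro q b h
      obtain ⟨q', _, b', hb', h2⟩ := hY.sub _ h
      rw [(ZFSet.pair_inj.1 h2).2]
      exact hb'
    -- (2)
    have h2 : ∀ q ∈ Pos L s, Le q p → ∀ b,
        (ZFSet.pair q b ∈ Y ↔ ZFSet.pair (mv π q) b ∈ trn L π p s s' Y) := by
      intro q hq hqp b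
      obtain ⟨m1, m2⟩ := b5 q hq hqp
      constructor
      · intro hqb
        rw [tda_mem]
        refine ⟨⟨m1, hYb q b hqb⟩, fun r hr hrq => ?_⟩
        have h3 : Le r (mv π p) := htr L s' _ _ _ b4 m1 hr hrq m2
        obtain ⟨r1, hr1, h4, rfl⟩ := b6 r hr h3
        have h5 : Le r1 q := (hle q hq r1 hr1).1 hrq
        exact ⟨_, hr, hrf L s' _ hr, Or.inl ⟨r1, hr1, h4, rfl, hY.mono q b hqb r1 hr1 h5⟩⟩
      · intro hm
        rw [tda_mem] at hm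
        obtain ⟨⟨-, hb⟩, hm⟩ := hm
        refine hY.ful q hq b hb fun q' hq' hq'q => ?_
        have h3 : Le q' p := htr L s _ _ _ hpp hq hq' hq'q hqp
        obtain ⟨n1, n2⟩ := b5 q' hq' h3
        obtain ⟨r', hr', h4, h5⟩ := hm (mv π q') n1 ((hle q hq q' hq').2 hq'q)
        rcases h5 with ⟨q2, hq2, h6, rfl, h7⟩ | ⟨h6, -⟩
        · exact ⟨q2, hq2, (hle q' hq' q2 hq2).1 h4, h7⟩
        · exact absurd ⟨hrf L s' r' hr', htr L s' _ _ _ b4 n1 hr' h4 n2⟩ (h6 r' hr')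
    -- (3)
    have h3 : ∀ q ∈ Pos L s', (∀ q' ∈ Pos L s', ¬ (Le q' q ∧ Le q' (mv π p))) → ∀ b ∈ sq,
        (ZFSet.pair q b ∈ trn L π p s s' Y ↔ b ⊆ kc 0) := by
      intro q hq hinc b hb
      rw [tda_mem]
      constructor
      · rintro ⟨-, hm⟩
        obtain ⟨r', hr', h4, h5⟩ := hm q hq (hrf L s' q hq)
        rcases h5 with ⟨q2, hq2, h6, rfl, -⟩ | ⟨-, h6⟩
        · exact absurd ⟨h4, (b5 q2 hq2 h6).2⟩ (hinc _ hr')
        · exact h6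
      · intro hbk
        refine ⟨⟨hq, hb⟩, fun r hr hrq => ⟨r, hr, hrf L s' r hr, Or.inr ⟨?_, hbk⟩⟩⟩
        rintro q' hq' ⟨h4, h5⟩
        exact hinc q' hq' ⟨htr L s' _ _ _ hq hr hq' h4 hrq, h5⟩
    -- the constant real
    obtain ⟨k1, k2, k3, -⟩ := hAG.1 (kc 0) (hAH.2.2.2.1 0).1
    have hkeq : ∀ b b', b ⊆ kc 0 → b' ⊆ kc 0 → dm b = dm b' → b ∈ sq → b ⊆ b' := by
      intro b b' hb hb' hd hbs z hz
      obtain ⟨n, hn⟩ := (hAF.1 b).1 hbs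
      obtain ⟨x, -, y, -, rfl⟩ : ∃ x ∈ nS n, ∃ y ∈ hf, z = ZFSet.pair x y := by
        have h4 := hn.1 hz
        rw [ZFSet.mem_prod] at h4
        exact h4
      have h5 : x ∈ dm b' := by
        rw [← hd, mem_dm]
        exact ⟨y, hz⟩
      obtain ⟨y', hy'⟩ := mem_dm.1 h5
      have h6 := k1 x y y' (hb hz) (hb' hy')
      rw [h6]
      exact hy'
    refine ⟨?_, h2, h3⟩
    refine
      { sub := ?_
        mono := ?_
        den := ?_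
        uni := ?_
        ini := ?_
        ful := ?_ }
    · intro z hz
      unfold trn at hz
      rw [ZFSet.mem_sep, ZFSet.mem_prod] at hz
      obtain ⟨⟨q, hq, b, hb, rfl⟩, -⟩ := hz
      exact ⟨q, hq, b, hb, rfl⟩
    · intro q b hqb q' hq' hq'q
      rw [tda_mem] at hqb ⊢
      refine ⟨⟨hq', hqb.1.2⟩, fun r hr hrq => hqb.2 r hr ?_⟩
      exact htr L s' _ _ _ hqb.1.1 hq' hr hrq hq'q
    · intro n hn q hq
      by_cases hc : ∃ q' ∈ Pos L s', Le q' q ∧ Le q' (mv π p)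
      · obtain ⟨q', hq', h4, h5⟩ := hc
        obtain ⟨q1, hq1, h6, rfl⟩ := b6 q' hq' h5
        obtain ⟨q2, hq2, h7, b, h8, h9⟩ := hY.den n hn q1 hq1
        have h10 : Le q2 p := htr L s _ _ _ hpp hq1 hq2 h7 h6
        have h11 := (b5 q2 hq2 h10).1
        refine ⟨mv π q2, h11, ?_, b, h8, (h2 q2 hq2 h10 b).1 h9⟩
        exact htr L s' _ _ _ hq hq' h11 ((hle q1 hq1 q2 hq2).2 h7) h4
      · push Not at hc
        obtain ⟨m, rfl⟩ := mem_om.1 hn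
        obtain ⟨-, l2, l3, -⟩ := k3 m
        refine ⟨q, hq, hrf L s' q hq, rs (kc 0) (nS m), (hAF.2.2.2.2.1 m _ l2).2.2.1, ?_⟩
        refine (h3 q hq (fun q' hq' h => hc q' hq' h.1 h.2) _ ?_).2 l3
        exact (hAF.1 _).2 ⟨m, l2⟩
    · intro q b b' hqb hqb' hd
      rw [tda_mem] at hqb hqb'
      obtain ⟨⟨hq, hb⟩, hm⟩ := hqb
      obtain ⟨⟨-, hb'⟩, hm'⟩ := hqb'
      obtain ⟨r', hr', h4, h5⟩ := hm q hq (hrf L s' q hq)
      obtain ⟨r'', hr'', h6, h7⟩ := hm' r' hr' h4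
      rcases h5 with ⟨q1, hq1, e1, rfl, e3⟩ | ⟨e1, e2⟩
      · rcases h7 with ⟨q2, hq2, f1, rfl, f3⟩ | ⟨f1, -⟩
        · exact hY.uni q2 b b' (hY.mono q1 b e3 q2 hq2 ((hle q1 hq1 q2 hq2).1 h6)) f3 hd
        · exact absurd ⟨hrf L s' _ hr'', htr L s' _ _ _ b4 hr' hr'' h6 (b5 q1 hq1 e1).2⟩
            (f1 r'' hr'')
      · rcases h7 with ⟨q2, hq2, f1, rfl, f3⟩ | ⟨-, f2⟩
        · exact absurd ⟨h6, (b5 q2 hq2 f1).2⟩ (e1 _ hr'')
        · exact ZFSet.ext fun z => ⟨fun hz => hkeq b b' e2 f2 hd hb hz,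
            fun hz => hkeq b' b f2 e2 hd.symm hb' hz⟩
    · intro q b hqb n hn
      rw [tda_mem] at hqb ⊢
      obtain ⟨⟨hq, hb⟩, hm⟩ := hqb
      obtain ⟨m, hbm⟩ := (hAF.1 b).1 hb
      obtain ⟨-, -, hdb, -, -, hrs⟩ := hAF.2.2.2.2.1 m b hbm
      have hn2 := hn
      rw [hdb] at hn2
      obtain ⟨k, hk, rfl⟩ := tda_mem_nS hn2
      obtain ⟨g1, g2, -⟩ := hrs k hk.le
      refine ⟨⟨hq, (hAF.1 _).2 ⟨k, g1⟩⟩, fun r hr hrq => ?_⟩
      obtain ⟨r', hr', h4, h5⟩ := hm r hr hrq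
      refine ⟨r', hr', h4, ?_⟩
      rcases h5 with ⟨q1, hq1, e1, e2, e3⟩ | ⟨e1, e2⟩
      · exact Or.inl ⟨q1, hq1, e1, e2, hY.ini q1 b e3 _ hn⟩
      · exact Or.inr ⟨e1, fun z hz => e2 (g2 hz)⟩
    · intro q hq b hb hful
      rw [tda_mem]
      refine ⟨⟨hq, hb⟩, fun r hr hrq => ?_⟩
      obtain ⟨q'', hq'', h4, h5⟩ := hful r hr hrq
      rw [tda_mem] at h5
      obtain ⟨r', hr', h6, h7⟩ := h5.2 q'' hq'' (hrf L s' q'' hq'')
      exact ⟨r', hr', htr L s' _ _ _ hr hq'' hr' h6 h4, h7⟩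

end SE
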