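import Pool.Agent.H45.SE.TarT

/-! # TEa: the components of the copies -/

set_option linter.unusedVariables false

open Ordinal Order Set
open scoped ZFSet

namespace SE

open SF

theorem pf_TEa (hBA : T_BA) (hBC : T_BC) (hBD : T_BD) (hTBa : T_TBa) (hTBd : T_TBd)
    (hTDa : T_TDa) : T_TEa := by
  intro L g π0 ρ0 ρ0' p fl ρ1 hc1 h01 ht0 hmap hinj hfre hp π hπ
  have hlab := hBA.1
  -- values
  have hval : ∀ l ∈ ρ1, app π l = cpy L g π0 ρ0 p fl l := by
    intro l hl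
    rw [hπ]
    exact app_resS hl
  have hin : ∀ l ∈ ρ0, app π l = app π0 l := by
    intro l hl
    rw [hval l (h01 hl), cpy_eq]
    exact sel_pos hl
  have hout : ∀ l ∈ ρ1, l ∉ ρ0 → app π l = lab (nS 0) (ZFSet.pair g l) (im π (lS l))
        (trn L π (rst (lS l) p) (lS l) (im π (lS l)) (lY l))
        (sel (fl = ∅) (knm L (im π (lS l)) 0)
          (trn L π (rst (lS l) p) (lS l) (im π (lS l)) (lZ l)))
        (knm L (im π (lS l)) 0) (knm L (im π (lS l)) 0) := by
    intro l hl hl0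
    have hS : lS l ⊆ ρ1 := (hc1 l hl).2
    have hag : ∀ i ∈ lS l, app (resS (lS l) (cpy L g π0 ρ0 p fl)) i = app π i := by
      intro i hi
      rw [app_resS hi, hval i (hS hi)]
    have him : im (resS (lS l) (cpy L g π0 ρ0 p fl)) (lS l) = im π (lS l) :=
      (hTBa.2.2.2.1 _ π (lS l) hag).1
    have hrp : FF (rst (lS l) p) ∧ dm (rst (lS l) p) ⊆ lS l := by
      have hFF : FF p := ((hBC.2.2.2.1 L ρ1 p).1 hp).1
      obtain ⟨r1, r2, -, -⟩ := hBC.2.2.2.2.1 (lS l) p hFF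
      exact ⟨r1, fun i hi => ((r2 i).1 hi).2⟩
    have htrn : ∀ Y, trn L (resS (lS l) (cpy L g π0 ρ0 p fl)) (rst (lS l) p) (lS l)
        (im π (lS l)) Y = trn L π (rst (lS l) p) (lS l) (im π (lS l)) Y := fun Y =>
      hTDa.1 L _ π (rst (lS l) p) (lS l) (im π (lS l)) Y hrp.1 hrp.2 hag
    rw [hval l hl, cpy_eq]
    unfold cps
    rw [sel_neg hl0, him, htrn, htrn]
  have htag : ∀ l ∈ ρ1, l ∉ ρ0 → lG (app π l) = ZFSet.pair g l := by
    intro l hl hl0
    rw [hout l hl hl0]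
    exact (hlab _ _ _ _ _ _ _).2.1
  have hnot : ∀ l ∈ ρ1, l ∉ ρ0 → app π l ∉ ρ0' := fun l hl hl0 h =>
    hfre _ h l (htag l hl hl0)
  have hcpi : ∀ j, j ∈ cpi L g π0 ρ0 p fl ρ1 ↔ ∃ i ∈ ρ1, app π i = j := by
    intro j
    unfold cpi
    rw [mem_imS]
    constructor
    · rintro ⟨i, hi, rfl⟩
      exact ⟨i, hi, hval i hi⟩
    · rintro ⟨i, hi, rfl⟩
      exact ⟨i, hi, (hval i hi).symm⟩
  refine ⟨?_, ?_, fun j hj => (hcpi j).1 hj, hin, fun l hl hl0 => ⟨hnot l hl hl0, hout l hl hl0⟩⟩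
  · rw [hπ]
    unfold cpm
    refine isFunc_resS _ _ _ fun x hx => ?_
    unfold cpi
    rw [mem_imS]
    exact ⟨x, hx, rfl⟩
  · intro i hi j hj he
    by_cases h1 : i ∈ ρ0
    · by_cases h2 : j ∈ ρ0
      · rw [hin i h1, hin j h2] at he
        exact hinj i h1 j h2 he
      · exfalso
        apply hnot j hj h2
        rw [← he, hin i h1]
        exact hmap i h1
    · by_cases h2 : j ∈ ρ0
      · exfalso
        apply hnot i hi h1
        rw [he, hin j h2]
        exact hmap j h2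
      · have h3 := htag i hi h1
        have h4 := htag j hj h2
        rw [he, h4] at h3
        exact (ZFSet.pair_inj.1 h3).2.symm

end SE
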